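import Pool.Agent.Helper76.PC.Stmts

/-! EXP: expansion of the number of perfect matchings at a vertex -/

set_option autoImplicit false

namespace Pool.Agent.Helper76.PC

open Finset

theorem exp_maps {G : Gr} {m : ℕ → ℕ} (hm : m ∈ PM G) {x : ℕ} (hx : x ∈ G.V) : m x ∈ G.V :=
  G.mem (m x) x (G.symm x (m x) (hm.1 x hx))

theorem exp_finite (G : Gr) : (PM G).Finite := by
  have : Finite (PM G) := by
    apply Finite.of_injective (fun m : PM G => fun x : G.V => (⟨m.1 x.1, exp_maps m.2 x.2⟩ : G.V))
    intro m m' h
    apply Subtype.ext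
    funext x
    by_cases hx : x ∈ G.V
    · have h1 := congrFun h ⟨x, hx⟩
      exact congrArg Subtype.val h1
    · rw [m.2.2.1 x hx, m'.2.2.1 x hx]
  exact Set.toFinite _

theorem exp_ne {G : Gr} {v y : ℕ} (hy : y ∈ G.N v) : y ≠ v := by
  rintro rfl
  exact G.bip y y hy rfl

theorem exp_V (G : Gr) (v y x : ℕ) : x ∈ (del (del G v) y).V ↔ x ≠ y ∧ x ≠ v ∧ x ∈ G.V := by
  show x ∈ (G.V.erase v).erase y ↔ _
  rw [Finset.mem_erase, Finset.mem_erase]

theorem exp_N (G : Gr) (v y x z : ℕ) : z ∈ (del (del G v) y).N x ↔
    x ≠ y ∧ z ≠ y ∧ x ≠ v ∧ z ≠ v ∧ z ∈ G.N x := by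
  show z ∈ (if x = y then ∅ else (if x = v then ∅ else (G.N x).erase v).erase y) ↔ _
  by_cases h1 : x = y
  · rw [if_pos h1]
    constructor
    · intro h
      exact absurd h (Finset.notMem_empty z)
    · intro h
      exact absurd h1 h.1
  · rw [if_neg h1]
    by_cases h2 : x = v
    · rw [if_pos h2, Finset.mem_erase]
      constructor
      · intro h
        exact absurd h.2 (Finset.notMem_empty z)
      · intro h
        exact absurd h2 h.2.2.1
    · rw [if_neg h2, Finset.mem_erase, Finset.mem_erase]
      tauto

theorem exp_fiber (G : Gr) {v y : ℕ} (hv : v ∈ G.V) (hy : y ∈ G.N v) :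
    {m | m ∈ PM G ∧ m v = y}.ncard = P (del (del G v) y) := by
  have hyv : y ≠ v := exp_ne hy
  have hyV : y ∈ G.V := G.mem y v (G.symm v y hy)
  unfold P
  have hback : ∀ m, m ∈ PM G ∧ m v = y → m y = v := by
    rintro m ⟨hm, hmv⟩
    rw [← hmv]
    exact hm.2.2 v
  have hval : ∀ (m : ℕ → ℕ) (x : ℕ), x ≠ y → x ≠ v →
      Function.update (Function.update m v v) y y x = m x := by
    intro m x h1 h2
    rw [Function.update_of_ne h1, Function.update_of_ne h2]
  have hvaly : ∀ m : ℕ → ℕ, Function.update (Function.update m v v) y y y = y := by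
    intro m
    rw [Function.update_self]
  have hvalv : ∀ m : ℕ → ℕ, Function.update (Function.update m v v) y y v = v := by
    intro m
    rw [Function.update_of_ne hyv.symm, Function.update_self]
  apply Set.ncard_congr (fun m _ => Function.update (Function.update m v v) y y)
  · rintro m ⟨hm, hmv⟩
    have hmy := hback m ⟨hm, hmv⟩
    have hne : ∀ x, x ≠ y → x ≠ v → m x ≠ y ∧ m x ≠ v := by
      intro x h1 h2
      constructor
      · intro h
        have := hm.2.2 x
        rw [h, hmy] at this
        exact h2 this.symm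
      · intro h
        have := hm.2.2 x
        rw [h, hmv] at this
        exact h1 this.symm
    refine ⟨?_, ?_, ?_⟩
    · intro x hx
      rw [exp_V] at hx
      rw [hval m x hx.1 hx.2.1, exp_N]
      obtain ⟨n1, n2⟩ := hne x hx.1 hx.2.1
      exact ⟨hx.1, n1, hx.2.1, n2, hm.1 x hx.2.2⟩
    · intro x hx
      by_cases h1 : x = y
      · subst h1
        exact hvaly m
      · by_cases h2 : x = v
        · subst h2
          exact hvalv m
        · rw [hval m x h1 h2]
          apply hm.2.1
          intro hV
          exact hx ((exp_V G v y x).2 ⟨h1, h2, hV⟩)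
    · intro x
      by_cases h1 : x = y
      · subst h1
        rw [hvaly m, hvaly m]
      · by_cases h2 : x = v
        · subst h2
          rw [hvalv m, hvalv m]
        · obtain ⟨n1, n2⟩ := hne x h1 h2
          rw [hval m x h1 h2, hval m (m x) n1 n2]
          exact hm.2.2 x
  · rintro m m' ⟨hm, hmv⟩ ⟨hm', hmv'⟩ h
    have hmy := hback m ⟨hm, hmv⟩
    have hmy' := hback m' ⟨hm', hmv'⟩
    funext x
    by_cases h1 : x = y
    · rw [h1, hmy, hmy']
    · by_cases h2 : x = v
      · rw [h2, hmv, hmv']
      · have := congrFun h x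
        rw [hval m x h1 h2, hval m' x h1 h2] at this
        exact this
  · intro m' hm'
    have hm'v : m' v = v := hm'.2.1 v (fun h => ((exp_V G v y v).1 h).2.1 rfl)
    have hm'y : m' y = y := hm'.2.1 y (fun h => ((exp_V G v y y).1 h).1 rfl)
    have w1 : ∀ x : ℕ, x ≠ y → x ≠ v →
        Function.update (Function.update m' v y) y v x = m' x := by
      intro x h1 h2
      rw [Function.update_of_ne h1, Function.update_of_ne h2]
    have w2 : Function.update (Function.update m' v y) y v y = v := by
      rw [Function.update_self]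
    have w3 : Function.update (Function.update m' v y) y v v = y := by
      rw [Function.update_of_ne hyv.symm, Function.update_self]
    have hne : ∀ x, x ≠ y → x ≠ v → m' x ≠ y ∧ m' x ≠ v := by
      intro x h1 h2
      constructor
      · intro h
        have := hm'.2.2 x
        rw [h, hm'y] at this
        exact h1 this.symm
      · intro h
        have := hm'.2.2 x
        rw [h, hm'v] at this
        exact h2 this.symm
    refine ⟨Function.update (Function.update m' v y) y v, ⟨⟨?_, ?_, ?_⟩, w3⟩, ?_⟩
    · intro x hx
      by_cases h1 : x = y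
      · rw [h1, w2]
        exact G.symm v y hy
      · by_cases h2 : x = v
        · rw [h2, w3]
          exact hy
        · rw [w1 x h1 h2]
          have := hm'.1 x ((exp_V G v y x).2 ⟨h1, h2, hx⟩)
          rw [exp_N] at this
          exact this.2.2.2.2
    · intro x hx
      have h1 : x ≠ y := by
        rintro rfl
        exact hx hyV
      have h2 : x ≠ v := by
        rintro rfl
        exact hx hv
      rw [w1 x h1 h2]
      apply hm'.2.1
      intro h
      exact hx ((exp_V G v y x).1 h).2.2
    · intro x
      by_cases h1 : x = y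
      · rw [h1, w2, w3]
      · by_cases h2 : x = v
        · rw [h2, w3, w2]
        · obtain ⟨n1, n2⟩ := hne x h1 h2
          rw [w1 x h1 h2, w1 (m' x) n1 n2]
          exact hm'.2.2 x
    · funext x
      by_cases h1 : x = y
      · rw [h1, hvaly, hm'y]
      · by_cases h2 : x = v
        · rw [h2, hvalv, hm'v]
        · rw [hval _ x h1 h2, w1 x h1 h2]

theorem st_EXP : ST_EXP := by
  classical
  intro G v hv
  have hfin := exp_finite G
  have h0 : P G = hfin.toFinset.card := Set.ncard_eq_toFinset_card _ hfin
  rw [h0, Finset.card_eq_sum_card_fiberwise (f := fun m : ℕ → ℕ => m v) (t := G.N v)]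
  · apply Finset.sum_congr rfl
    intro y hy
    rw [← exp_fiber G hv hy, ← Set.ncard_coe_finset]
    congr 1
    ext m
    simp
  · intro m hm
    have : m ∈ PM G := by simpa using hm
    exact this.1 v hv

end Pool.Agent.Helper76.PC
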